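import Pool.Agent.J4H9.BF.Stm2

/-!
# Pure cycles of length three in normal subgroups (project BF, pieces N3 and CMT)

The commutator of a pure cycle of length three with an element which moves one of its three pairs and fixes the two
others is a pure cycle of length three.
-/

set_option autoImplicit false

namespace Pool.Agent.J4H97.BF

open Pool.Agent.J4H9.BF

/-- `z : a → b → c → a`, and all the elements outside the three pairs are fixed -/
structure Cyc3 {G X : Type} [Group G] [MulAction G X] (bar : X → X) (z : G) (a b c : X) : Prop where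
  ab : z • a = b
  bc : z • b = c
  ca : z • c = a
  n1 : a ≠ b ∧ a ≠ bar b
  n2 : a ≠ c ∧ a ≠ bar c
  n3 : b ≠ c ∧ b ≠ bar c
  fix : ∀ x, x ≠ a → x ≠ bar a → x ≠ b → x ≠ bar b → x ≠ c → x ≠ bar c → z • x = x

section

variable {G X : Type} [Group G] [MulAction G X] {bar : X → X} {z : G} {a b c : X}

theorem Cyc3.cube (h : Cyc3 bar z a b c) : z ^ 3 • a = a := by
  rw [pow_succ, mul_smul, h.ab, sq, mul_smul, h.bc, h.ca]

theorem Cyc3.powm (h : Cyc3 bar z a b c) (k : ℕ) : z ^ k • a = z ^ (k % 3) • a := by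
  have h3 : ∀ n : ℕ, z ^ (3 * n) • a = a := by
    intro n
    induction n with
    | zero => simp
    | succ n ih => rw [Nat.mul_succ, pow_add, mul_smul, h.cube, ih]
  conv_lhs => rw [← Nat.mod_add_div k 3, pow_add, mul_smul, h3]

theorem Cyc3.pow_cases (h : Cyc3 bar z a b c) (k : ℕ) :
    (k % 3 = 0 ∧ z ^ k • a = a) ∨ (k % 3 = 1 ∧ z ^ k • a = b) ∨ (k % 3 = 2 ∧ z ^ k • a = c) := by
  rw [h.powm k]
  have h1 : k % 3 < 3 := Nat.mod_lt _ (by norm_num)
  generalize k % 3 = n at h1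
  interval_cases n
  · left; exact ⟨rfl, by simp⟩
  · right; left; exact ⟨rfl, by rw [pow_one, h.ab]⟩
  · right; right; exact ⟨rfl, by rw [sq, mul_smul, h.ab, h.bc]⟩

theorem Cyc3.pure (hs : Sgn G X bar) (h : Cyc3 bar z a b c) : PureCyc G X bar 3 z a := by
  have hbn : ∀ {x y : X}, x ≠ y → bar x ≠ bar y := by
    intro x y hxy h1
    apply hxy
    rw [← hs.bb x, h1, hs.bb]
  have hbn' : ∀ {x y : X}, x ≠ bar y → y ≠ bar x := by
    intro x y hxy h1
    apply hxy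
    rw [h1, hs.bb]
  refine ⟨h.cube, ?_, ?_, ?_⟩
  · intro k hk l hl hkl
    have hk3 : k % 3 = k := Nat.mod_eq_of_lt hk
    have hl3 : l % 3 = l := Nat.mod_eq_of_lt hl
    rcases h.pow_cases k with ⟨k1, k2⟩ | ⟨k1, k2⟩ | ⟨k1, k2⟩ <;>
      rcases h.pow_cases l with ⟨l1, l2⟩ | ⟨l1, l2⟩ | ⟨l1, l2⟩ <;> rw [k2, l2] at hkl <;>
      first
        | omega
        | exact absurd hkl h.n1.1
        | exact absurd hkl h.n2.1
        | exact absurd hkl h.n3.1
        | exact absurd hkl.symm h.n1.1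
        | exact absurd hkl.symm h.n2.1
        | exact absurd hkl.symm h.n3.1
  · intro k l hkl
    rcases h.pow_cases k with ⟨k1, k2⟩ | ⟨k1, k2⟩ | ⟨k1, k2⟩ <;>
      rcases h.pow_cases l with ⟨l1, l2⟩ | ⟨l1, l2⟩ | ⟨l1, l2⟩ <;> rw [k2, l2] at hkl <;>
      first
        | exact hs.ne _ hkl.symm
        | exact h.n1.2 hkl
        | exact h.n2.2 hkl
        | exact h.n3.2 hkl
        | exact hbn' h.n1.2 hkl
        | exact hbn' h.n2.2 hkl
        | exact hbn' h.n3.2 hkl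
  · intro x
    by_contra hx
    push Not at hx
    obtain ⟨hx1, hx2⟩ := hx
    apply hx2
    have h0 := hx1 0
    have h1 := hx1 1
    have h2 := hx1 2
    rw [pow_zero, one_smul] at h0
    rw [pow_one, h.ab] at h1
    rw [sq, mul_smul, h.ab, h.bc] at h2
    exact h.fix x h0.1 h0.2 h1.1 h1.2 h2.1 h2.2

theorem exists_cyc3 {x₁ : X} (h : PureCyc G X bar 3 z x₁) :
    Cyc3 bar z x₁ (z • x₁) (z • z • x₁) := by
  have e2 : z ^ 2 • x₁ = z • z • x₁ := by rw [sq, mul_smul]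
  have e3 : z ^ 3 • x₁ = z • z • z • x₁ := by rw [pow_succ', mul_smul, e2]
  have e1 : z ^ 1 • x₁ = z • x₁ := by rw [pow_one]
  have e0 : z ^ 0 • x₁ = x₁ := by rw [pow_zero, one_smul]
  have hper := h.per
  rw [e3] at hper
  have i01 := h.inj 0 (by norm_num) 1 (by norm_num)
  have i02 := h.inj 0 (by norm_num) 2 (by norm_num)
  have i12 := h.inj 1 (by norm_num) 2 (by norm_num)
  have j01 := h.ne 0 1
  have j02 := h.ne 0 2
  have j12 := h.ne 1 2
  rw [e0, e1] at i01 j01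
  rw [e0, e2] at i02 j02
  rw [e1, e2] at i12 j12
  refine ⟨rfl, rfl, hper, ⟨fun h => by simpa using i01 h, j01⟩, ⟨fun h => by simpa using i02 h, j02⟩,
    ⟨fun h => by simpa using i12 h, j12⟩, ?_⟩
  intro x h1 h2 h3 h4 h5 h6
  rcases h.fix x with ⟨k, hk⟩ | hx
  · exfalso
    have hm : ∀ k : ℕ, z ^ k • x₁ = x₁ ∨ z ^ k • x₁ = z • x₁ ∨ z ^ k • x₁ = z • z • x₁ := by
      intro k
      induction k with
      | zero => left; rw [e0]
      | succ k ih =>
        rw [pow_succ', mul_smul]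
        rcases ih with ih | ih | ih
        · right; left; rw [ih]
        · right; right; rw [ih]
        · left; rw [ih, hper]
    rcases hm k with h7 | h7 | h7 <;> rw [h7] at hk <;> rcases hk with hk | hk
    · exact h1 hk
    · exact h2 hk
    · exact h3 hk
    · exact h4 hk
    · exact h5 hk
    · exact h6 hk
  · exact hx

theorem Cyc3.conj (hs : Sgn G X bar) (h : Cyc3 bar z a b c) (σ : G) :
    Cyc3 bar (σ * z * σ⁻¹) (σ • a) (σ • b) (σ • c) := by
  have hi : Function.Injective (fun x : X => σ • x) := MulAction.injective σ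
  have e : ∀ x : X, (σ * z * σ⁻¹) • σ • x = σ • z • x := by
    intro x
    rw [mul_smul, mul_smul, inv_smul_smul]
  refine ⟨by rw [e, h.ab], by rw [e, h.bc], by rw [e, h.ca],
    ⟨fun h' => h.n1.1 (hi h'), fun h' => ?_⟩, ⟨fun h' => h.n2.1 (hi h'), fun h' => ?_⟩,
    ⟨fun h' => h.n3.1 (hi h'), fun h' => ?_⟩, ?_⟩
  · rw [hs.comm] at h'; exact h.n1.2 (hi h')
  · rw [hs.comm] at h'; exact h.n2.2 (hi h')
  · rw [hs.comm] at h'; exact h.n3.2 (hi h')
  · intro x h1 h2 h3 h4 h5 h6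
    rw [hs.comm] at h2 h4 h6
    have h7 : z • σ⁻¹ • x = σ⁻¹ • x := by
      apply h.fix <;> intro h8 <;> rw [inv_smul_eq_iff] at h8
      · exact h1 h8
      · exact h2 h8
      · exact h3 h8
      · exact h4 h8
      · exact h5 h8
      · exact h6 h8
    rw [mul_smul, mul_smul, h7, smul_inv_smul]

/-- the commutator with an element which moves the first pair only -/
theorem Cyc3.comm (hs : Sgn G X bar) (h : Cyc3 bar z a b c) {τ : G} (hb : τ • b = b) (hc : τ • c = c)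
    (ha : τ • a ≠ a) (ha' : τ • a ≠ bar a) : Cyc3 bar (τ * z * τ⁻¹ * z⁻¹) a (τ • a) b := by
  have hi : Function.Injective (fun x : X => τ • x) := MulAction.injective τ
  have hbn' : ∀ {x y : X}, x ≠ bar y → y ≠ bar x := by
    intro x y hxy h1
    apply hxy
    rw [h1, hs.bb]
  have ia : z⁻¹ • a = c := by rw [inv_smul_eq_iff, h.ca]
  have ib : z⁻¹ • b = a := by rw [inv_smul_eq_iff, h.ab]
  have ic : z⁻¹ • c = b := by rw [inv_smul_eq_iff, h.bc]
  have tb : τ⁻¹ • b = b := by rw [inv_smul_eq_iff, hb]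
  have tc : τ⁻¹ • c = c := by rw [inv_smul_eq_iff, hc]
  have a1 : τ • a ≠ b := fun h' => h.n1.1 (hi (by simp only [h', hb]))
  have a2 : τ • a ≠ bar b := fun h' => h.n1.2 (hi (by simp only [h', ← hs.comm, hb]))
  have a3 : τ • a ≠ c := fun h' => h.n2.1 (hi (by simp only [h', hc]))
  have a4 : τ • a ≠ bar c := fun h' => h.n2.2 (hi (by simp only [h', ← hs.comm, hc]))
  have zt : z⁻¹ • τ • a = τ • a := by
    rw [inv_smul_eq_iff, h.fix _ ha ha' a1 a2 a3 a4]
  -- the conjugate fixes everything outside of the pairs of `τ a`, `b`, `c`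
  have hf : ∀ x, x ≠ τ • a → x ≠ bar (τ • a) → x ≠ b → x ≠ bar b → x ≠ c → x ≠ bar c →
      (τ * z * τ⁻¹) • x = x := by
    intro x h1 h2 h3 h4 h5 h6
    have := (h.conj hs τ).fix x
    rw [hb, hc] at this
    exact this h1 h2 h3 h4 h5 h6
  have wa : (τ * z * τ⁻¹ * z⁻¹) • a = τ • a := by
    rw [mul_smul, ia, mul_smul, mul_smul, tc, h.ca]
  have wt : (τ * z * τ⁻¹ * z⁻¹) • τ • a = b := by
    rw [mul_smul, zt, mul_smul, mul_smul, inv_smul_smul, h.ab, hb]
  have wb : (τ * z * τ⁻¹ * z⁻¹) • b = a := by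
    rw [mul_smul, ib]
    exact hf a ha.symm (hbn' ha') h.n1.1 h.n1.2 h.n2.1 h.n2.2
  have wc : (τ * z * τ⁻¹ * z⁻¹) • c = c := by
    rw [mul_smul, ic, mul_smul, mul_smul, tb, h.bc, hc]
  refine ⟨wa, wt, wb, ⟨ha.symm, hbn' ha'⟩, h.n1, ⟨a1, a2⟩, ?_⟩
  intro x h1 h2 h3 h4 h5 h6
  by_cases hxc : x = c
  · rw [hxc, wc]
  by_cases hxc' : x = bar c
  · rw [hxc', ← hs.comm, wc]
  have zx : z⁻¹ • x = x := by rw [inv_smul_eq_iff, h.fix x h1 h2 h5 h6 hxc hxc']
  rw [mul_smul, zx]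
  exact hf x h3 h4 h5 h6 hxc hxc'

/-- moving a pure cycle of length three to three given pairs -/
theorem exists_conj (hs : Sgn G X bar) (hm : MT G X bar 3) {x₁ : X} (h : PureCyc G X bar 3 z x₁)
    {p d e : X} (h1 : p ≠ d ∧ p ≠ bar d) (h2 : p ≠ e ∧ p ≠ bar e) (h3 : d ≠ e ∧ d ≠ bar e) :
    ∃ (σ : G) (a b c : X), Cyc3 bar (σ * z * σ⁻¹) a b c ∧ (a = p ∨ a = bar p) ∧
      (b = d ∨ b = bar d) ∧ (c = e ∨ c = bar e) := by
  have hc := exists_cyc3 h
  have hbn' : ∀ {x y : X}, x ≠ bar y → y ≠ bar x := by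
    intro x y hxy h1
    apply hxy
    rw [h1, hs.bb]
  have hD : ∀ u v w : X, (u ≠ v ∧ u ≠ bar v) → (u ≠ w ∧ u ≠ bar w) → (v ≠ w ∧ v ≠ bar w) →
      Dist bar ![u, v, w] := by
    intro u v w h1 h2 h3 i j hij
    fin_cases i <;> fin_cases j <;>
      first
        | exact absurd rfl hij
        | exact h1
        | exact h2
        | exact h3
        | exact ⟨h1.1.symm, hbn' h1.2⟩
        | exact ⟨h2.1.symm, hbn' h2.2⟩
        | exact ⟨h3.1.symm, hbn' h3.2⟩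
  obtain ⟨σ, hσ⟩ := hm _ _ (hD x₁ (z • x₁) (z • z • x₁) hc.n1 hc.n2 hc.n3) (hD p d e h1 h2 h3)
  exact ⟨σ, _, _, _, hc.conj hs σ, hσ 0, hσ 1, hσ 2⟩

theorem ncard_two {X : Type} (x y : X) : ({x, y} : Set X).ncard ≤ 2 := by
  refine (Set.ncard_insert_le _ _).trans ?_
  rw [Set.ncard_singleton]

/-- an element outside of a small set -/
theorem exists_out [Finite X] (S : Set X) (n : ℕ) (h1 : S.ncard ≤ n) (h2 : n + 2 < Nat.card X) (bar : X → X) :
    ∃ b c : X, b ∉ S ∧ c ∉ S ∧ b ≠ c ∧ b ≠ bar c := by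
  classical
  have hex : ∀ T : Set X, T.ncard < Nat.card X → ∃ x, x ∉ T := by
    intro T hT
    by_contra hall
    push Not at hall
    rw [Set.eq_univ_of_forall hall, Set.ncard_univ] at hT
    exact lt_irrefl _ hT
  obtain ⟨c, hc⟩ := hex S (by omega)
  obtain ⟨b, hb⟩ := hex (S ∪ {c, bar c}) (by
    have h3 := Set.ncard_union_le S {c, bar c}
    have h4 : ({c, bar c} : Set X).ncard ≤ 2 := ncard_two _ _
    omega)
  simp only [Set.mem_union, Set.mem_insert_iff, Set.mem_singleton_iff, not_or] at hb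
  exact ⟨b, c, hb.1, hc, hb.2.1, hb.2.2⟩

end

/-- **(N3)** -/
theorem t_N3 : S_N3 := by
  intro G X _ _ _ _ bar g r hs hX hr h5 hg hrg hMT hz K hK τ x₀ hτ h
  obtain ⟨z, x₁, hz⟩ := hz
  -- the pairs of the long cycle
  set S : Set X := {x | ∃ k : ℕ, x = τ ^ k • x₀ ∨ x = bar (τ ^ k • x₀)} with hS
  have hper : ∀ n : ℕ, τ ^ (r * n) • x₀ = x₀ := by
    intro n
    induction n with
    | zero => simp
    | succ n ih => rw [Nat.mul_succ, pow_add, mul_smul, h.per, ih]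
  have hmod : ∀ k : ℕ, τ ^ k • x₀ = τ ^ (k % r) • x₀ := by
    intro k
    conv_lhs => rw [← Nat.mod_add_div k r, pow_add, mul_smul, hper]
  have hScard : S.ncard ≤ 2 * r := by
    have h1 : S ⊆ (fun k : ℕ => τ ^ k • x₀) '' (Finset.range r : Set ℕ) ∪
        (fun k : ℕ => bar (τ ^ k • x₀)) '' (Finset.range r : Set ℕ) := by
      rintro x ⟨k, hk | hk⟩
      · left
        exact ⟨k % r, by simpa using Nat.mod_lt _ (by omega), by rw [hk, hmod k]⟩
      · right
        exact ⟨k % r, by simpa using Nat.mod_lt _ (by omega), by rw [hk, hmod k]⟩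
    have h2 := Set.ncard_le_ncard h1 (Set.toFinite _)
    have h3 := Set.ncard_union_le ((fun k : ℕ => τ ^ k • x₀) '' (Finset.range r : Set ℕ))
      ((fun k : ℕ => bar (τ ^ k • x₀)) '' (Finset.range r : Set ℕ))
    have h4 : ((fun k : ℕ => τ ^ k • x₀) '' (Finset.range r : Set ℕ)).ncard ≤ r := by
      refine (Set.ncard_image_le (Set.toFinite _)).trans ?_
      rw [Set.ncard_coe_finset, Finset.card_range]
    have h5 : ((fun k : ℕ => bar (τ ^ k • x₀)) '' (Finset.range r : Set ℕ)).ncard ≤ r := by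
      refine (Set.ncard_image_le (Set.toFinite _)).trans ?_
      rw [Set.ncard_coe_finset, Finset.card_range]
    omega
  obtain ⟨d, e, hd, he, hde⟩ := exists_out S (2 * r) hScard (by omega) bar
  have hSb : ∀ x, bar x ∈ S → x ∈ S := by
    rintro x ⟨k, hk | hk⟩
    · exact ⟨k, Or.inr (by rw [← hk, hs.bb])⟩
    · exact ⟨k, Or.inl (by rw [← hs.bb x, hk, hs.bb])⟩
  have hx0 : x₀ ∈ S := ⟨0, Or.inl (by simp)⟩
  have hfix : ∀ x, x ∉ S → τ • x = x := fun x hx => (h.fix x).resolve_left hx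
  have hp : ∀ y, y ∉ S → x₀ ≠ y ∧ x₀ ≠ bar y := by
    intro y hy
    refine ⟨fun h' => hy (h' ▸ hx0), fun h' => hy (hSb y (h' ▸ hx0))⟩
  obtain ⟨σ, a, b, c, hc3, ha, hb, hc⟩ := exists_conj hs (hMT 3 (by norm_num)) hz (hp d hd) (hp e he) hde
  have hfix' : ∀ x y, x ∉ S → (y = x ∨ y = bar x) → τ • y = y := by
    intro x y hx hy
    rcases hy with rfl | rfl
    · exact hfix _ hx
    · exact hfix _ (fun h' => hx (hSb _ h'))
  have t1 : τ • x₀ ≠ x₀ := by
    intro h'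
    have := h.inj 1 (by omega) 0 (by omega) (by rw [pow_one, pow_zero, one_smul, h'])
    omega
  have t2 : τ • x₀ ≠ bar x₀ := by
    intro h'
    exact h.ne 1 0 (by rw [pow_one, pow_zero, one_smul, h'])
  have ta : τ • a ≠ a ∧ τ • a ≠ bar a := by
    rcases ha with rfl | rfl
    · exact ⟨t1, t2⟩
    · rw [← hs.comm, hs.bb]
      refine ⟨fun h' => t1 ?_, fun h' => t2 ?_⟩
      · rw [← hs.bb (τ • x₀), h', hs.bb]
      · rw [← hs.bb (τ • x₀), h']
  have hfin := hc3.comm hs (hfix' d b hd hb) (hfix' e c he hc) ta.1 ta.2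
  refine ⟨_, _, ?_, hfin.pure hs⟩
  rw [mul_assoc, mul_assoc]
  refine K.mul_mem hτ ?_
  rw [← mul_assoc]
  exact hK.conj_mem _ (K.inv_mem hτ) _

/-- **(CMT)** -/
theorem t_CMT : S_CMT := by
  intro G X _ _ _ _ bar g hs hX hg hMT K K' hK hK' hz hz'
  obtain ⟨z, x₁, hzK, hz⟩ := hz
  obtain ⟨z', x₁', hzK', hz'⟩ := hz'
  have h3 := exists_cyc3 hz
  obtain ⟨q, hq⟩ : ∃ q, q = z • x₁ := ⟨_, rfl⟩
  obtain ⟨s, hs'⟩ : ∃ s, s = z • z • x₁ := ⟨_, rfl⟩
  rw [← hs', ← hq] at h3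
  set S : Set X := ({x₁, bar x₁} ∪ {q, bar q}) ∪ {s, bar s} with hS
  have hScard : S.ncard ≤ 6 := by
    have h1 := Set.ncard_union_le ({x₁, bar x₁} ∪ {q, bar q} : Set X) {s, bar s}
    have h2 := Set.ncard_union_le ({x₁, bar x₁} : Set X) {q, bar q}
    have h4 : ({x₁, bar x₁} : Set X).ncard ≤ 2 := ncard_two _ _
    have h5 : ({q, bar q} : Set X).ncard ≤ 2 := ncard_two _ _
    have h6 : ({s, bar s} : Set X).ncard ≤ 2 := ncard_two _ _
    rw [hS]
    omega
  obtain ⟨d, e, hd, he, hde⟩ := exists_out S 6 hScard (by omega) bar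
  have hmem : ∀ x, x ∉ S → (x ≠ x₁ ∧ x ≠ bar x₁ ∧ x ≠ q ∧ x ≠ bar q ∧ x ≠ s ∧ x ≠ bar s) := by
    intro x hx
    simp only [hS, Set.mem_union, Set.mem_insert_iff, Set.mem_singleton_iff, not_or] at hx
    tauto
  have hbn' : ∀ {x y : X}, x ≠ bar y → y ≠ bar x := by
    intro x y hxy h1
    apply hxy
    rw [h1, hs.bb]
  have hbb : ∀ {x y : X}, x ≠ y → bar x ≠ bar y := by
    intro x y hxy h1
    apply hxy
    rw [← hs.bb x, h1, hs.bb]
  have hp : ∀ y, y ∉ S → x₁ ≠ y ∧ x₁ ≠ bar y := by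
    intro y hy
    have := hmem y hy
    exact ⟨this.1.symm, hbn' this.2.1⟩
  obtain ⟨σ, a, b, c, hc3, ha, hb, hc⟩ := exists_conj hs (hMT 3 (by norm_num)) hz' (hp d hd) (hp e he) hde
  have hfix : ∀ x, x ∉ S → z • x = x := by
    intro x hx
    obtain ⟨m1, m2, m3, m4, m5, m6⟩ := hmem x hx
    exact h3.fix x m1 m2 m3 m4 m5 m6
  have hfix' : ∀ x y, x ∉ S → (y = x ∨ y = bar x) → z • y = y := by
    intro x y hx hy
    rcases hy with rfl | rfl
    · exact hfix _ hx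
    · rw [← hs.comm, hfix x hx]
  have ta : z • a ≠ a ∧ z • a ≠ bar a := by
    rcases ha with rfl | rfl
    · rw [h3.ab]
      exact ⟨h3.n1.1.symm, hbn' h3.n1.2⟩
    · rw [← hs.comm, h3.ab, hs.bb]
      exact ⟨hbb h3.n1.1.symm, fun h' => h3.n1.2 h'.symm⟩
  have hfin := hc3.comm hs (hfix' d b hd hb) (hfix' e c he hc) ta.1 ta.2
  refine ⟨_, _, ⟨?_, ?_⟩, hfin.pure hs⟩
  · rw [mul_assoc, mul_assoc]
    refine K.mul_mem hzK ?_
    rw [← mul_assoc]
    exact hK.conj_mem _ (K.inv_mem hzK) _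
  · exact K'.mul_mem (hK'.conj_mem _ (hK'.conj_mem _ hzK' _) _) (K'.inv_mem (hK'.conj_mem _ hzK' _))

end Pool.Agent.J4H97.BF
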